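import Mathlib

set_option autoImplicit false
open Filter Topology

/-!
Entropy inequalities and first order expansions of `t ^ (1 - ε)`.
-/

namespace Pool.Agent.H82R3.MZ

noncomputable section

/-- `(1+x) log (1+x) + (1-x) log (1-x)` -/
def L (x : ℝ) : ℝ := (1 + x) * Real.log (1 + x) + (1 - x) * Real.log (1 - x)

lemma continuous_L : Continuous L := by
  unfold L
  exact (Real.continuous_mul_log.comp (continuous_const.add continuous_id)).add
    (Real.continuous_mul_log.comp (continuous_const.sub continuous_id))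

lemma L_one : L 1 = 2 * Real.log 2 := by
  unfold L
  norm_num

lemma L_neg (x : ℝ) : L (-x) = L x := by
  unfold L
  ring_nf

lemma hasSum_L {x : ℝ} (h : |x| < 1) :
    HasSum (fun k : ℕ => x ^ (2 * k + 2) * (1 / ((2 * (k : ℝ) + 1) * (k + 1)))) (L x) := by
  have h1 := Real.hasSum_log_sub_log_of_abs_lt_one h
  have h2 : |x ^ 2| < 1 := by
    rw [abs_pow]
    exact pow_lt_one₀ (abs_nonneg _) h two_ne_zero
  have h3 := Real.hasSum_pow_div_log_of_abs_lt_one h2
  have h4 := (h1.mul_left x).sub h3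
  have hx := abs_lt.1 h
  have e1 : x * (Real.log (1 + x) - Real.log (1 - x)) - -Real.log (1 - x ^ 2) = L x := by
    have : (1 - x ^ 2) = (1 + x) * (1 - x) := by ring
    rw [this, Real.log_mul (by linarith) (by linarith)]
    unfold L
    ring
  rw [e1] at h4
  refine h4.congr_fun ?_ |> fun h => h
  intro k
  have h5 : (2 * (k : ℝ) + 1) ≠ 0 := by positivity
  have h6 : ((k : ℝ) + 1) ≠ 0 := by positivity
  field_simp
  ring

lemma L_ge {x : ℝ} (h : |x| < 1) : x ^ 2 + x ^ 4 / 6 ≤ L x := by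
  have h1 := sum_le_hasSum (Finset.range 2) (fun k _ => by
    have e : x ^ (2 * k + 2) = (x ^ (k + 1)) ^ 2 := by rw [← pow_mul]; ring_nf
    rw [e]; positivity) (hasSum_L h)
  rw [Finset.sum_range_succ, Finset.sum_range_one] at h1
  norm_num at h1
  linarith

lemma partial_le (s : Finset ℕ) : ∑ k ∈ s, (1 / ((2 * (k : ℝ) + 1) * (k + 1))) ≤ 2 * Real.log 2 := by
  have h1 : Tendsto (fun x : ℝ => ∑ k ∈ s, x ^ (2 * k + 2) * (1 / ((2 * (k : ℝ) + 1) * (k + 1)))) (𝓝[<] 1)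
      (𝓝 (∑ k ∈ s, (1 / ((2 * (k : ℝ) + 1) * (k + 1))))) := by
    have hc : Continuous (fun x : ℝ => ∑ k ∈ s, x ^ (2 * k + 2) * (1 / ((2 * (k : ℝ) + 1) * (k + 1)))) := by
      fun_prop
    have := (hc.tendsto 1).mono_left (nhdsWithin_le_nhds (s := Set.Iio 1))
    simpa using this
  have h2 : Tendsto L (𝓝[<] 1) (𝓝 (2 * Real.log 2)) := by
    rw [← L_one]
    exact (continuous_L.tendsto 1).mono_left nhdsWithin_le_nhds
  apply le_of_tendsto_of_tendsto h1 h2
  have h3 : ∀ᶠ x : ℝ in 𝓝[<] 1, x ∈ Set.Ioo (0 : ℝ) 1 := Ioo_mem_nhdsLT (by norm_num)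
  filter_upwards [h3] with x hx
  have hx1 : |x| < 1 := by rw [abs_of_pos hx.1]; exact hx.2
  have hx0 := hx.1
  exact sum_le_hasSum s (fun k _ => by positivity) (hasSum_L hx1)

lemma L_le {x : ℝ} (h : |x| < 1) : L x ≤ 2 * Real.log 2 * x ^ 2 := by
  apply hasSum_le_of_sum_le (hasSum_L h)
  intro s
  calc ∑ k ∈ s, x ^ (2 * k + 2) * (1 / ((2 * (k : ℝ) + 1) * (k + 1)))
      ≤ ∑ k ∈ s, x ^ 2 * (1 / ((2 * (k : ℝ) + 1) * (k + 1))) := by
        apply Finset.sum_le_sum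
        intro k _
        apply mul_le_mul_of_nonneg_right _ (by positivity)
        have : x ^ (2 * k + 2) = (x ^ 2) ^ k * x ^ 2 := by rw [← pow_mul, ← pow_add]
        rw [this]
        have h2 : (x ^ 2) ^ k ≤ 1 := by
          apply pow_le_one₀ (sq_nonneg _)
          rw [sq_le_one_iff_abs_le_one]
          exact h.le
        nlinarith [sq_nonneg x]
    _ = (∑ k ∈ s, (1 / ((2 * (k : ℝ) + 1) * (k + 1)))) * x ^ 2 := by
        rw [Finset.sum_mul]
        apply Finset.sum_congr rfl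
        intro k _; ring
    _ ≤ _ := mul_le_mul_of_nonneg_right (partial_le s) (sq_nonneg _)

lemma L_le' {x : ℝ} (h : |x| ≤ 1) : L x ≤ 2 * Real.log 2 * x ^ 2 := by
  rcases lt_or_eq_of_le h with h1 | h1
  · exact L_le h1
  · rcases eq_or_eq_neg_of_abs_eq h1 with h2 | h2
    · rw [h2, L_one]; norm_num
    · rw [h2, L_neg, L_one]; norm_num

lemma L_ge' {x : ℝ} (h : |x| ≤ 1) : x ^ 2 + x ^ 4 / 6 ≤ L x := by
  rcases lt_or_eq_of_le h with h1 | h1
  · exact L_ge h1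
  · have h3 : (1 : ℝ) + 1 / 6 ≤ 2 * Real.log 2 := by
      have := Real.log_two_gt_d9
      norm_num at this ⊢
      linarith
    rcases eq_or_eq_neg_of_abs_eq h1 with h2 | h2
    · rw [h2, L_one]; norm_num at h3 ⊢; linarith
    · rw [h2, L_neg, L_one]; norm_num at h3 ⊢; linarith

/-- lower bound for `t ^ (1 - ε)` -/
lemma pow_lower {t ε : ℝ} (ht : 0 ≤ t) (hε1 : ε < 1) : t - ε * (t * Real.log t) ≤ t ^ (1 - ε) := by
  rcases eq_or_lt_of_le ht with h0 | h0
  · rw [← h0, Real.zero_rpow (by linarith)]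
    simp
  · have e1 : t ^ (1 - ε) = t * Real.exp (-(ε * Real.log t)) := by
      rw [Real.rpow_sub h0, Real.rpow_one, Real.exp_neg, mul_comm ε, ← Real.rpow_def_of_pos h0]
      rfl
    rw [e1]
    have h1 := Real.add_one_le_exp (-(ε * Real.log t))
    nlinarith

/-- `t^(1/2) log² t` is bounded on `[0,2]` -/
lemma sqrt_log_sq {t : ℝ} (ht : 0 < t) (ht2 : t ≤ 2) : t ^ (1 / 2 : ℝ) * Real.log t ^ 2 ≤ 16 := by
  rcases le_or_gt t 1 with h | h
  · have h1 := Real.abs_log_mul_self_rpow_lt t (1 / 4) ht h (by norm_num)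
    have h2 : (Real.log t * t ^ (1 / 4 : ℝ)) ^ 2 ≤ 4 ^ 2 := by
      rw [sq_le_sq]
      rw [abs_of_pos (by norm_num : (0 : ℝ) < 4)]
      norm_num at h1 ⊢
      exact h1.le
    have h3 : (t ^ (1 / 4 : ℝ)) ^ 2 = t ^ (1 / 2 : ℝ) := by
      rw [← Real.rpow_natCast, ← Real.rpow_mul ht.le]
      norm_num
    rw [mul_pow, h3] at h2
    linarith
  · have h1 : t ^ (1 / 2 : ℝ) ≤ 2 := by
      calc t ^ (1 / 2 : ℝ) ≤ t ^ (1 : ℝ) := Real.rpow_le_rpow_of_exponent_le h.le (by norm_num)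
        _ = t := Real.rpow_one t
        _ ≤ 2 := ht2
    have h2 : 0 ≤ Real.log t := Real.log_nonneg h.le
    have h3 : Real.log t ≤ 1 := by
      calc Real.log t ≤ t - 1 := Real.log_le_sub_one_of_pos ht
        _ ≤ 1 := by linarith
    have h4 : Real.log t ^ 2 ≤ 1 := by nlinarith
    have h5 : 0 ≤ t ^ (1 / 2 : ℝ) := by positivity
    nlinarith [sq_nonneg (Real.log t)]

lemma exp_sub_le (u : ℝ) : Real.exp u - 1 - u ≤ u ^ 2 * Real.exp |u| := by
  rcases le_or_gt 0 u with h0 | h0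
  · rw [abs_of_nonneg h0]
    -- exp u - 1 - u ≤ u² exp u : from exp(-u) ≥ 1 - u
    have h1 := Real.add_one_le_exp (-u)
    have h2 : Real.exp u * Real.exp (-u) = 1 := by rw [← Real.exp_add]; simp
    have h3 : 0 < Real.exp u := Real.exp_pos u
    -- exp u (1 - u) ≤ 1
    have h4 : Real.exp u * (1 - u) ≤ 1 := by nlinarith
    -- exp u - 1 ≤ u exp u ; hence exp u - 1 - u ≤ u (exp u - 1) ≤ u * (u exp u)
    have h5 : Real.exp u - 1 ≤ u * Real.exp u := by linarith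
    have h6 : u * (Real.exp u - 1) ≤ u * (u * Real.exp u) := mul_le_mul_of_nonneg_left h5 h0
    nlinarith
  · rw [abs_of_neg h0]
    have h1 := Real.add_one_le_exp (-u)
    have h2 : Real.exp u * Real.exp (-u) = 1 := by rw [← Real.exp_add]; simp
    have h3 : 0 < Real.exp u := Real.exp_pos u
    have h3' : 0 < Real.exp (-u) := Real.exp_pos _
    -- u < 0 : exp u ≤ 1/(1-u), so exp u - 1 - u ≤ (1 - (1+u)(1-u))/(1-u) = u²/(1-u) ≤ u²
    have h4 : Real.exp u * (1 - u) ≤ 1 := by nlinarith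
    have h5 : (Real.exp u - 1 - u) * (1 - u) ≤ u ^ 2 := by nlinarith
    have h6 : (1 : ℝ) ≤ Real.exp (-u) := Real.one_le_exp (by linarith)
    have h7 : Real.exp u - 1 - u ≤ u ^ 2 := by
      have h8 : 0 ≤ Real.exp u - 1 - u := by linarith [Real.add_one_le_exp u]
      nlinarith
    nlinarith [sq_nonneg u]

/-- upper bound for `t ^ (1 - ε)` on `[0,2]` -/
lemma pow_upper {t ε : ℝ} (ht : 0 ≤ t) (ht2 : t ≤ 2) (hε0 : 0 ≤ ε) (hε1 : ε ≤ 1 / 4) :
    t ^ (1 - ε) ≤ t - ε * (t * Real.log t) + 32 * ε ^ 2 := by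
  rcases eq_or_lt_of_le ht with h0 | h0
  · rw [← h0, Real.zero_rpow (by linarith)]
    have : 0 ≤ 32 * ε ^ 2 := by positivity
    simpa using this
  · have e1 : t ^ (1 - ε) = t * Real.exp (-(ε * Real.log t)) := by
      rw [Real.rpow_sub h0, Real.rpow_one, Real.exp_neg, mul_comm ε, ← Real.rpow_def_of_pos h0]
      rfl
    have h1 := exp_sub_le (-(ε * Real.log t))
    have h2 : t * (Real.exp (-(ε * Real.log t)) - 1 - -(ε * Real.log t)) ≤
        t * ((-(ε * Real.log t)) ^ 2 * Real.exp |-(ε * Real.log t)|) := mul_le_mul_of_nonneg_left h1 ht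
    -- t exp|ε log t| ≤ 2 t^(1/2)
    have h3 : t * Real.exp |-(ε * Real.log t)| ≤ 2 * t ^ (1 / 2 : ℝ) := by
      rw [abs_neg, abs_mul, abs_of_nonneg hε0]
      rcases le_or_gt t 1 with h | h
      · have hl : Real.log t ≤ 0 := Real.log_nonpos ht h
        rw [abs_of_nonpos hl]
        have e2 : t * Real.exp (ε * -Real.log t) = t ^ (1 - ε) := by rw [e1]; congr 2; ring
        rw [e2]
        have h4 : t ^ (1 - ε) ≤ t ^ (1 / 2 : ℝ) := Real.rpow_le_rpow_of_exponent_ge h0 h (by linarith)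
        have h5 : 0 ≤ t ^ (1 / 2 : ℝ) := by positivity
        linarith
      · have hl : 0 ≤ Real.log t := Real.log_nonneg h.le
        rw [abs_of_nonneg hl]
        have e2 : t * Real.exp (ε * Real.log t) = t ^ (1 / 2 : ℝ) * t ^ (1 / 2 + ε : ℝ) := by
          rw [← Real.rpow_add h0, mul_comm ε, ← Real.rpow_def_of_pos h0]
          nth_rewrite 1 [← Real.rpow_one t]
          rw [← Real.rpow_add h0]
          congr 1
          ring
        rw [e2, mul_comm]
        apply mul_le_mul_of_nonneg_right _ (by positivity)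
        calc t ^ (1 / 2 + ε : ℝ) ≤ t ^ (1 : ℝ) := Real.rpow_le_rpow_of_exponent_le h.le (by linarith)
          _ = t := Real.rpow_one t
          _ ≤ 2 := ht2
    have h4 := sqrt_log_sq h0 ht2
    have h5 : t * ((-(ε * Real.log t)) ^ 2 * Real.exp |-(ε * Real.log t)|) ≤ 32 * ε ^ 2 := by
      calc t * ((-(ε * Real.log t)) ^ 2 * Real.exp |-(ε * Real.log t)|)
          = ε ^ 2 * Real.log t ^ 2 * (t * Real.exp |-(ε * Real.log t)|) := by ring
        _ ≤ ε ^ 2 * Real.log t ^ 2 * (2 * t ^ (1 / 2 : ℝ)) := mul_le_mul_of_nonneg_left h3 (by positivity)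
        _ = 2 * ε ^ 2 * (t ^ (1 / 2 : ℝ) * Real.log t ^ 2) := by ring
        _ ≤ 2 * ε ^ 2 * 16 := mul_le_mul_of_nonneg_left h4 (by positivity)
        _ = 32 * ε ^ 2 := by ring
    rw [e1]
    nlinarith

/-- orbit sums -/
lemma orbit_bounds {u0 u1 u2 u3 Q ε : ℝ} (h0 : 0 ≤ u0) (h1 : 0 ≤ u1) (h2 : 0 ≤ u2) (h3 : 0 ≤ u3) (hQ : 0 < Q)
    (s1 : u0 + u2 = 2 * Q) (s2 : u1 + u3 = 2 * Q) (s3 : (u0 - u2) ^ 2 + (u1 - u3) ^ 2 = 4 * Q ^ 2)
    (hε0 : 0 ≤ ε) (hε1 : ε ≤ 1 / 4) :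
    (4 - 2 * Real.log 2 * ε) * Q ^ (1 - ε) ≤ u0 ^ (1 - ε) + u1 ^ (1 - ε) + u2 ^ (1 - ε) + u3 ^ (1 - ε) ∧
    u0 ^ (1 - ε) + u1 ^ (1 - ε) + u2 ^ (1 - ε) + u3 ^ (1 - ε) ≤ (4 - 13 / 12 * ε + 128 * ε ^ 2) * Q ^ (1 - ε) := by
  set c := (u0 - u2) / (2 * Q) with hc
  set s := (u1 - u3) / (2 * Q) with hs
  have e0 : u0 = Q * (1 + c) := by rw [hc]; field_simp; linarith
  have e2 : u2 = Q * (1 - c) := by rw [hc]; field_simp; linarith
  have e1 : u1 = Q * (1 + s) := by rw [hs]; field_simp; linarith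
  have e3 : u3 = Q * (1 - s) := by rw [hs]; field_simp; linarith
  have hcs : c ^ 2 + s ^ 2 = 1 := by
    rw [hc, hs, div_pow, div_pow, ← add_div, s3]
    field_simp
    norm_num
  have hc1 : |c| ≤ 1 := by
    rw [← sq_le_one_iff_abs_le_one]; nlinarith [sq_nonneg s]
  have hs1 : |s| ≤ 1 := by
    rw [← sq_le_one_iff_abs_le_one]; nlinarith [sq_nonneg c]
  obtain ⟨hc2, hc3⟩ := abs_le.1 hc1
  obtain ⟨hs2, hs3⟩ := abs_le.1 hs1
  have hQq : 0 < Q ^ (1 - ε) := Real.rpow_pos_of_pos hQ _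
  have key : u0 ^ (1 - ε) + u1 ^ (1 - ε) + u2 ^ (1 - ε) + u3 ^ (1 - ε) =
      ((1 + c) ^ (1 - ε) + (1 - c) ^ (1 - ε) + (1 + s) ^ (1 - ε) + (1 - s) ^ (1 - ε)) * Q ^ (1 - ε) := by
    rw [e0, e1, e2, e3, Real.mul_rpow hQ.le (by linarith), Real.mul_rpow hQ.le (by linarith),
      Real.mul_rpow hQ.le (by linarith), Real.mul_rpow hQ.le (by linarith)]
    ring
  rw [key]
  constructor
  · apply mul_le_mul_of_nonneg_right _ hQq.le
    have a1 := pow_lower (t := 1 + c) (ε := ε) (by linarith) (by linarith)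
    have a2 := pow_lower (t := 1 - c) (ε := ε) (by linarith) (by linarith)
    have a3 := pow_lower (t := 1 + s) (ε := ε) (by linarith) (by linarith)
    have a4 := pow_lower (t := 1 - s) (ε := ε) (by linarith) (by linarith)
    have b1 := L_le' hc1
    have b2 := L_le' hs1
    have b3 : L c + L s ≤ 2 * Real.log 2 := by
      calc L c + L s ≤ 2 * Real.log 2 * c ^ 2 + 2 * Real.log 2 * s ^ 2 := add_le_add b1 b2
        _ = 2 * Real.log 2 * (c ^ 2 + s ^ 2) := by ring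
        _ = _ := by rw [hcs, mul_one]
    have b4 : ε * (L c + L s) ≤ ε * (2 * Real.log 2) := mul_le_mul_of_nonneg_left b3 hε0
    unfold L at b4
    linarith
  · apply mul_le_mul_of_nonneg_right _ hQq.le
    have a1 := pow_upper (t := 1 + c) (ε := ε) (by linarith) (by linarith) hε0 hε1
    have a2 := pow_upper (t := 1 - c) (ε := ε) (by linarith) (by linarith) hε0 hε1
    have a3 := pow_upper (t := 1 + s) (ε := ε) (by linarith) (by linarith) hε0 hε1
    have a4 := pow_upper (t := 1 - s) (ε := ε) (by linarith) (by linarith) hε0 hε1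
    have b1 := L_ge' hc1
    have b2 := L_ge' hs1
    have b3 : 13 / 12 ≤ L c + L s := by
      have h5 : 1 / 2 ≤ c ^ 4 + s ^ 4 := by
        have : (c ^ 2 + s ^ 2) ^ 2 = 1 := by rw [hcs]; norm_num
        nlinarith [sq_nonneg (c ^ 2 - s ^ 2)]
      linarith
    have b4 : ε * (13 / 12) ≤ ε * (L c + L s) := mul_le_mul_of_nonneg_left b3 hε0
    unfold L at b4
    linarith

end

end Pool.Agent.H82R3.MZ
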