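import Mathlib
import Pool.Agent.H82R3.MZ.Ent

set_option autoImplicit false
open Filter Topology

namespace Pool.Agent.H82R3.MZ

noncomputable section

/-- `x ↦ (x²)^(1-ε)` -/
def T (ε x : ℝ) : ℝ := (x ^ 2) ^ (1 - ε)

/-- `(x, y) ↦ (x² + y²)^(1-ε)` -/
def T2 (ε x y : ℝ) : ℝ := (x ^ 2 + y ^ 2) ^ (1 - ε)

lemma T_neg (ε x : ℝ) : T ε (-x) = T ε x := by unfold T; rw [neg_sq]

lemma T_abs (ε x : ℝ) : T ε |x| = T ε x := by unfold T; rw [sq_abs]

lemma T_nonneg (ε x : ℝ) : 0 ≤ T ε x := Real.rpow_nonneg (sq_nonneg _) _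

lemma deriv_bound {ε s : ℝ} (hε0 : 0 ≤ ε) (hε1 : ε ≤ 1 / 8) (h0 : 0 ≤ s) (h20 : s ≤ 20) :
    |(2 - 2 * ε) * s ^ (1 - 2 * ε) - 2 * s| ≤ 2000 * ε := by
  have hp : s ^ (1 - 2 * ε) ≤ 20 := by
    rcases le_or_gt s 1 with h | h
    · have : s ^ (1 - 2 * ε) ≤ 1 := Real.rpow_le_one h0 h (by linarith)
      linarith
    · calc s ^ (1 - 2 * ε) ≤ s ^ (1 : ℝ) := Real.rpow_le_rpow_of_exponent_le h.le (by linarith)
        _ = s := Real.rpow_one s
        _ ≤ 20 := h20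
  have hp0 : 0 ≤ s ^ (1 - 2 * ε) := Real.rpow_nonneg h0 _
  have hd : |s ^ (1 - 2 * ε) - s| ≤ 760 * ε := by
    rcases eq_or_lt_of_le h0 with h | h
    · rw [← h, Real.zero_rpow (by linarith)]
      simp
      positivity
    · have e1 : s ^ (1 - 2 * ε) = s * Real.exp (-(2 * ε * Real.log s)) := by
        rw [Real.rpow_sub h, Real.rpow_one, Real.exp_neg, mul_comm (2 * ε), ← Real.rpow_def_of_pos h]
        rfl
      rcases le_or_gt s 1 with h1 | h1
      · -- s^(1-2ε) ≥ s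
        have hl : Real.log s ≤ 0 := Real.log_nonpos h0 h1
        have e2 : s = s ^ (1 - 2 * ε) * Real.exp (2 * ε * Real.log s) := by
          rw [e1, mul_assoc, ← Real.exp_add]; simp
        have a1 := Real.add_one_le_exp (2 * ε * Real.log s)
        have a2 := Real.abs_log_mul_self_rpow_lt s (1 / 2) h h1 (by norm_num)
        rw [abs_mul, abs_of_nonpos hl, abs_of_nonneg (Real.rpow_nonneg h0 _)] at a2
        have a3 : s ^ (1 - 2 * ε) ≤ s ^ (1 / 2 : ℝ) := Real.rpow_le_rpow_of_exponent_ge h h1 (by linarith)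
        have a4 : s ≤ s ^ (1 - 2 * ε) := by
          calc s = s ^ (1 : ℝ) := (Real.rpow_one s).symm
            _ ≤ _ := Real.rpow_le_rpow_of_exponent_ge h h1 (by linarith)
        rw [abs_of_nonneg (by linarith)]
        have a5 : s ^ (1 - 2 * ε) - s ≤ s ^ (1 - 2 * ε) * (2 * ε * -Real.log s) := by
          have : s ^ (1 - 2 * ε) * (2 * ε * Real.log s + 1) ≤ s ^ (1 - 2 * ε) * Real.exp (2 * ε * Real.log s) :=
            mul_le_mul_of_nonneg_left a1 hp0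
          rw [← e2] at this
          linarith
        have a6 : s ^ (1 - 2 * ε) * (2 * ε * -Real.log s) ≤ s ^ (1 / 2 : ℝ) * (2 * ε * -Real.log s) :=
          mul_le_mul_of_nonneg_right a3 (mul_nonneg (by positivity) (by linarith))
        have a7 : s ^ (1 / 2 : ℝ) * (2 * ε * -Real.log s) ≤ 2 * ε * 2 := by
          have : -Real.log s * s ^ (1 / 2 : ℝ) ≤ 2 := by norm_num at a2 ⊢; linarith
          calc s ^ (1 / 2 : ℝ) * (2 * ε * -Real.log s) = 2 * ε * (-Real.log s * s ^ (1 / 2 : ℝ)) := by ring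
            _ ≤ 2 * ε * 2 := mul_le_mul_of_nonneg_left this (by positivity)
        linarith
      · have hl : 0 ≤ Real.log s := Real.log_nonneg h1.le
        have hl2 : Real.log s ≤ 19 := by
          calc Real.log s ≤ s - 1 := Real.log_le_sub_one_of_pos h
            _ ≤ 19 := by linarith
        have a1 := Real.add_one_le_exp (-(2 * ε * Real.log s))
        have a2 : s ^ (1 - 2 * ε) ≤ s := by
          calc s ^ (1 - 2 * ε) ≤ s ^ (1 : ℝ) := Real.rpow_le_rpow_of_exponent_le h1.le (by linarith)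
            _ = s := Real.rpow_one s
        rw [abs_of_nonpos (by linarith)]
        have a3 : s * (-(2 * ε * Real.log s) + 1) ≤ s ^ (1 - 2 * ε) := by
          rw [e1]; exact mul_le_mul_of_nonneg_left a1 h0
        have a4 : s * (2 * ε * Real.log s) ≤ 20 * (2 * ε * 19) := by
          apply mul_le_mul h20 _ (by positivity) (by norm_num)
          exact mul_le_mul_of_nonneg_left hl2 (by positivity)
        linarith
  have e3 : (2 - 2 * ε) * s ^ (1 - 2 * ε) - 2 * s = 2 * (s ^ (1 - 2 * ε) - s) - 2 * ε * s ^ (1 - 2 * ε) := by ring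
  rw [e3]
  calc |2 * (s ^ (1 - 2 * ε) - s) - 2 * ε * s ^ (1 - 2 * ε)|
      ≤ |2 * (s ^ (1 - 2 * ε) - s)| + |2 * ε * s ^ (1 - 2 * ε)| := abs_sub _ _
    _ = 2 * |s ^ (1 - 2 * ε) - s| + 2 * ε * s ^ (1 - 2 * ε) := by
        rw [abs_mul, abs_of_nonneg (by positivity : 0 ≤ 2 * ε * s ^ (1 - 2 * ε)), abs_of_pos (by norm_num : (0 : ℝ) < 2)]
    _ ≤ 2 * (760 * ε) + 2 * ε * 20 := by
        apply add_le_add
        · linarith
        · exact mul_le_mul_of_nonneg_left hp (by positivity)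
    _ ≤ 2000 * ε := by linarith

lemma T_of_nonneg {ε s : ℝ} (h0 : 0 ≤ s) : T ε s = s ^ (2 - 2 * ε) := by
  unfold T
  rw [← Real.rpow_natCast, ← Real.rpow_mul h0]
  congr 1
  push_cast; ring

lemma lip0 {ε s t : ℝ} (hε0 : 0 ≤ ε) (hε1 : ε ≤ 1 / 8) (hs : 0 ≤ s) (hs2 : s ≤ 20) (ht : 0 ≤ t) (ht2 : t ≤ 20) :
    |(T ε s - s ^ 2) - (T ε t - t ^ 2)| ≤ 2000 * ε * |s - t| := by
  rw [T_of_nonneg hs, T_of_nonneg ht]
  have h := Convex.norm_image_sub_le_of_norm_hasDerivWithin_le (𝕜 := ℝ) (s := Set.Icc (0 : ℝ) 20)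
    (f := fun x => x ^ (2 - 2 * ε) - x ^ 2) (f' := fun x => (2 - 2 * ε) * x ^ (1 - 2 * ε) - 2 * x)
    (C := 2000 * ε) (x := t) (y := s) ?_ ?_ (convex_Icc 0 20) ⟨ht, ht2⟩ ⟨hs, hs2⟩
  · simpa [Real.norm_eq_abs] using h
  · intro x hx
    apply HasDerivAt.hasDerivWithinAt
    have h1 := Real.hasDerivAt_rpow_const (x := x) (p := 2 - 2 * ε) (Or.inr (by linarith))
    have h2 := hasDerivAt_pow 2 x
    have h3 : HasDerivAt (fun x : ℝ => x ^ (2 - 2 * ε) - x ^ 2) _ x := h1.sub h2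
    have e1 : 2 - 2 * ε - 1 = 1 - 2 * ε := by ring
    rw [e1] at h3
    refine h3.congr_deriv ?_
    norm_num
  · intro x hx
    rw [Real.norm_eq_abs]
    exact deriv_bound hε0 hε1 hx.1 hx.2

lemma lip {ε x y : ℝ} (hε0 : 0 ≤ ε) (hε1 : ε ≤ 1 / 8) (hx : |x| ≤ 20) (hy : |y| ≤ 20) :
    |(T ε x - x ^ 2) - (T ε y - y ^ 2)| ≤ 2000 * ε * |x - y| := by
  have h := lip0 hε0 hε1 (abs_nonneg x) hx (abs_nonneg y) hy
  rw [T_abs, T_abs, sq_abs, sq_abs] at h
  refine h.trans ?_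
  exact mul_le_mul_of_nonneg_left (abs_abs_sub_abs_le x y) (by positivity)

lemma lip' {ε x y : ℝ} (hε0 : 0 ≤ ε) (hε1 : ε ≤ 1 / 8) (hx : |x| ≤ 20) (hy : |y| ≤ 20) :
    |T ε x - T ε y| ≤ 300 * |x - y| := by
  have h := lip hε0 hε1 hx hy
  have h2 : |x ^ 2 - y ^ 2| ≤ 40 * |x - y| := by
    have : x ^ 2 - y ^ 2 = (x + y) * (x - y) := by ring
    rw [this, abs_mul]
    apply mul_le_mul_of_nonneg_right _ (abs_nonneg _)
    exact (abs_add_le x y).trans (by linarith)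
  have h3 : |T ε x - T ε y| ≤ |(T ε x - x ^ 2) - (T ε y - y ^ 2)| + |x ^ 2 - y ^ 2| := by
    have : T ε x - T ε y = ((T ε x - x ^ 2) - (T ε y - y ^ 2)) + (x ^ 2 - y ^ 2) := by ring
    rw [this]
    exact abs_add_le _ _
  have h4 : 2000 * ε * |x - y| ≤ 250 * |x - y| := mul_le_mul_of_nonneg_right (by linarith) (abs_nonneg _)
  linarith [abs_nonneg (x - y)]

lemma lip2 {ε x y z : ℝ} (hε0 : 0 ≤ ε) (hε1 : ε ≤ 1 / 8) (hx : |x| ≤ 10) (hy : |y| ≤ 10) (hz : |z| ≤ 10) :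
    |(T2 ε x y - (x ^ 2 + y ^ 2)) - (T2 ε x z - (x ^ 2 + z ^ 2))| ≤ 2000 * ε * |y - z| := by
  have e1 : ∀ w, T2 ε x w = T ε (Real.sqrt (x ^ 2 + w ^ 2)) := by
    intro w; unfold T T2; rw [Real.sq_sqrt (by positivity)]
  have hb : ∀ w, |w| ≤ 10 → Real.sqrt (x ^ 2 + w ^ 2) ≤ 20 := by
    intro w hw
    rw [Real.sqrt_le_left (by norm_num)]
    have h1 : x ^ 2 ≤ 10 ^ 2 := by rw [sq_le_sq, abs_of_pos (by norm_num : (0 : ℝ) < 10)]; exact hx
    have h2 : w ^ 2 ≤ 10 ^ 2 := by rw [sq_le_sq, abs_of_pos (by norm_num : (0 : ℝ) < 10)]; exact hw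
    linarith
  have h := lip0 hε0 hε1 (Real.sqrt_nonneg (x ^ 2 + y ^ 2)) (hb y hy) (Real.sqrt_nonneg (x ^ 2 + z ^ 2)) (hb z hz)
  rw [← e1, ← e1, Real.sq_sqrt (by positivity), Real.sq_sqrt (by positivity)] at h
  refine h.trans ?_
  apply mul_le_mul_of_nonneg_left _ (by positivity)
  -- |√(x²+y²) - √(x²+z²)| ≤ |y - z|
  have h5 : ∀ y z : ℝ, Real.sqrt (x ^ 2 + y ^ 2) ≤ Real.sqrt (x ^ 2 + z ^ 2) + |y - z| := by
    intro y z
    rw [Real.sqrt_le_left (by positivity)]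
    have h6 : |z| ≤ Real.sqrt (x ^ 2 + z ^ 2) := by
      rw [← Real.sqrt_sq_eq_abs]
      apply Real.sqrt_le_sqrt
      nlinarith [sq_nonneg x]
    have h7 : Real.sqrt (x ^ 2 + z ^ 2) ^ 2 = x ^ 2 + z ^ 2 := Real.sq_sqrt (by positivity)
    have h8 : y ^ 2 = z ^ 2 + 2 * (z * (y - z)) + (y - z) ^ 2 := by ring
    have h9 : z * (y - z) ≤ Real.sqrt (x ^ 2 + z ^ 2) * |y - z| := by
      calc z * (y - z) ≤ |z * (y - z)| := le_abs_self _
        _ = |z| * |y - z| := abs_mul _ _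
        _ ≤ _ := mul_le_mul_of_nonneg_right h6 (abs_nonneg _)
    have h10 : |y - z| ^ 2 = (y - z) ^ 2 := sq_abs _
    nlinarith
  rw [abs_le]
  constructor
  · have := h5 z y
    rw [abs_sub_comm] at this
    linarith
  · have := h5 y z
    linarith

/-- the square roots of `2` and of `325` -/
def r : ℝ := Real.sqrt 2
def w : ℝ := Real.sqrt 325

lemma r_sq : r ^ 2 = 2 := Real.sq_sqrt (by norm_num)
lemma w_sq : w ^ 2 = 325 := Real.sq_sqrt (by norm_num)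
lemma r_lo : 1.41 < r := by unfold r; rw [Real.lt_sqrt (by norm_num)]; norm_num
lemma r_hi : r < 1.42 := by unfold r; rw [Real.sqrt_lt' (by norm_num)]; norm_num
lemma w_lo : 18 < w := by unfold w; rw [Real.lt_sqrt (by norm_num)]; norm_num
lemma w_hi : w < 18.1 := by unfold w; rw [Real.sqrt_lt' (by norm_num)]; norm_num

/-- potential -/
def V (F : ℝ → ℝ) (F2 : ℝ → ℝ → ℝ) (K a b : ℝ) : ℝ :=
  -(1 / 4) * (3 * (F ((10 * a + 15 * (r * b - a)) / w) - K * F (r * b - a)) +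
    2 * (F ((10 * b + 15 * (b - r * a)) / w) - K * F (b - r * a)) +
    (F ((10 * (r * b - a) - 15 * a) / w) - K * F a)) - 2 / 5 * F2 a (r * b - a)

/-- the defect -/
def D (F : ℝ → ℝ) (F2 : ℝ → ℝ → ℝ) (K a b c : ℝ) : ℝ :=
  K * F c - F ((3 * c + 12 * r * b - 2 * a) / w) + V F F2 K b c - V F F2 K a b

/-- exact identity for squares -/
lemma D_sq (a b c : ℝ) : D (fun x => x ^ 2) (fun x y => x ^ 2 + y ^ 2) 1 a b c = 6 / 325 * (c - (r * b - a)) ^ 2 := by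
  unfold D V
  simp only [div_pow, w_sq]
  have h := r_sq
  have h3 : r ^ 3 = 2 * r := by rw [pow_succ, h]
  have h4 : r ^ 4 = 4 := by rw [show r ^ 4 = (r ^ 2) ^ 2 by ring, h]; norm_num
  ring_nf
  simp only [h]
  ring

/-- exact patterns -/
lemma D_exact (F : ℝ → ℝ) (F2 : ℝ → ℝ → ℝ) (hF : ∀ x, F (-x) = F x) (K a b : ℝ)
    (hF2 : F2 a (r * b - a) = F2 b (b - r * a)) :
    D F F2 K a b (r * b - a) = 1 / 4 * (K * (F a + F b + F (r * b - a) + F (b - r * a)) -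
      (F ((10 * a + 15 * (r * b - a)) / w) + F ((10 * b + 15 * (b - r * a)) / w) +
       F ((10 * (r * b - a) - 15 * a) / w) + F ((10 * (b - r * a) - 15 * b) / w))) := by
  have h := r_sq
  have e1 : r * (r * b - a) - b = b - r * a := by
    have : r * (r * b - a) = r ^ 2 * b - r * a := by ring
    rw [this, h]; ring
  have e2 : r * b - a - r * b = -a := by ring
  have e3 : (3 * (r * b - a) + 12 * r * b - 2 * a) / w = (10 * a + 15 * (r * b - a)) / w := by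
    congr 1; ring
  have e4 : (10 * (r * b - a) + 15 * -a) / w = (10 * (r * b - a) - 15 * a) / w := by congr 1; ring
  unfold D V
  rw [e1, e2, e3, e4, hF, ← hF2]
  ring

end

end Pool.Agent.H82R3.MZ
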