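import Mathlib
import Pool.Agent.H82R3.MZ.Loc

set_option autoImplicit false
open Filter Topology

namespace Pool.Agent.H82R3.MZ

noncomputable section

set_option maxHeartbeats 4000000 in
lemma pert {ε a b c : ℝ} (hε0 : 0 ≤ ε) (hε1 : ε ≤ 1 / 8) (ha : |a| ≤ 1) (hb : |b| ≤ 1) (hc : |c| ≤ 1) :
    6 / 325 * (c - (r * b - a)) ^ 2 - 12000 * ε * |c - (r * b - a)| ≤
    D (T ε) (T2 ε) (1 + 48 / 625 * ε) a b c - D (T ε) (T2 ε) (1 + 48 / 625 * ε) a b (r * b - a) := by
  set δ := c - (r * b - a) with hδ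
  have hr1 := r_lo
  have hr2 := r_hi
  have hw1 := w_lo
  have hw2 := w_hi
  have hw0 : 0 < w := by linarith
  have hr0 : 0 < r := by linarith
  obtain ⟨ha1, ha2⟩ := abs_le.1 ha
  obtain ⟨hb1, hb2⟩ := abs_le.1 hb
  obtain ⟨hc1, hc2⟩ := abs_le.1 hc
  have hrb1 : -1.42 ≤ r * b := by nlinarith
  have hrb2 : r * b ≤ 1.42 := by nlinarith
  have hra1 : -1.42 ≤ r * a := by nlinarith
  have hra2 : r * a ≤ 1.42 := by nlinarith
  have hrc1 : -1.42 ≤ r * c := by nlinarith
  have hrc2 : r * c ≤ 1.42 := by nlinarith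
  have hδ0 := abs_nonneg δ
  -- bound for quotients
  have hquot : ∀ x : ℝ, |x| ≤ 300 → |x / w| ≤ 20 := by
    intro x hx
    rw [abs_div, abs_of_pos hw0, div_le_iff₀ hw0]
    linarith
  have hslope : ∀ x y k : ℝ, 0 ≤ k → |x - y| ≤ k * |δ| → |x / w - y / w| ≤ k / 18 * |δ| := by
    intro x y k hk hxy
    rw [← sub_div, abs_div, abs_of_pos hw0, div_le_iff₀ hw0]
    calc |x - y| ≤ k * |δ| := hxy
      _ = k / 18 * |δ| * 18 := by ring
      _ ≤ k / 18 * |δ| * w := mul_le_mul_of_nonneg_left hw1.le (by positivity)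
  -- numbers
  set e2 := r * b - a with he2
  set e3 := b - r * a with he3
  have hcδ : c = e2 + δ := by rw [hδ]; ring
  have E2 : r * c - b = e3 + r * δ := by
    rw [hδ, he2, he3]; have := r_sq; linear_combination b * this
  have E3 : c - r * b = -a + δ := by rw [hδ, he2]; ring
  have E2s : r * e2 - b = e3 := by
    rw [he2, he3]; have := r_sq; linear_combination b * this
  have E3s : e2 - r * b = -a := by rw [he2]; ring
  have be2 : |e2| ≤ 3 := by rw [abs_le]; constructor <;> linarith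
  have be3 : |e3| ≤ 3 := by rw [abs_le]; constructor <;> linarith
  have brc : |r * c - b| ≤ 3 := by rw [abs_le]; constructor <;> linarith
  have bcr : |c - r * b| ≤ 3 := by rw [abs_le]; constructor <;> linarith
  obtain ⟨e2a, e2b⟩ := abs_le.1 be2
  obtain ⟨e3a, e3b⟩ := abs_le.1 be3
  obtain ⟨f2a, f2b⟩ := abs_le.1 brc
  obtain ⟨f3a, f3b⟩ := abs_le.1 bcr
  have hrδ : |r * δ| ≤ 1.42 * |δ| := by
    rw [abs_mul, abs_of_pos hr0]
    exact mul_le_mul_of_nonneg_right hr2.le hδ0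
  -- the eight differences
  have d1 := lip hε0 hε1 (x := c) (y := e2) (by linarith) (by linarith)
  have d1' := lip' hε0 hε1 (x := c) (y := e2) (by linarith) (by linarith)
  have d2 := lip hε0 hε1 (x := (3 * c + 12 * r * b - 2 * a) / w) (y := (3 * e2 + 12 * r * b - 2 * a) / w)
    (hquot _ (by rw [abs_le]; constructor <;> nlinarith)) (hquot _ (by rw [abs_le]; constructor <;> nlinarith))
  have s2 := hslope (3 * c + 12 * r * b - 2 * a) (3 * e2 + 12 * r * b - 2 * a) 3 (by norm_num) (by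
    rw [show 3 * c + 12 * r * b - 2 * a - (3 * e2 + 12 * r * b - 2 * a) = 3 * δ by rw [hcδ]; ring, abs_mul]
    norm_num)
  have d3 := lip hε0 hε1 (x := (10 * b + 15 * (r * c - b)) / w) (y := (10 * b + 15 * e3) / w)
    (hquot _ (by rw [abs_le]; constructor <;> linarith)) (hquot _ (by rw [abs_le]; constructor <;> linarith))
  have s3 := hslope (10 * b + 15 * (r * c - b)) (10 * b + 15 * e3) 22 (by norm_num) (by
    rw [show 10 * b + 15 * (r * c - b) - (10 * b + 15 * e3) = 15 * (r * δ) by rw [E2]; ring, abs_mul,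
      abs_of_pos (by norm_num : (0 : ℝ) < 15)]
    linarith)
  have d4 := lip hε0 hε1 (x := r * c - b) (y := e3) (by linarith) (by linarith)
  have d4' := lip' hε0 hε1 (x := r * c - b) (y := e3) (by linarith) (by linarith)
  have d5 := lip hε0 hε1 (x := (10 * c + 15 * (c - r * b)) / w) (y := (10 * e2 + 15 * (-a)) / w)
    (hquot _ (by rw [abs_le]; constructor <;> linarith)) (hquot _ (by rw [abs_le]; constructor <;> linarith))
  have s5 := hslope (10 * c + 15 * (c - r * b)) (10 * e2 + 15 * (-a)) 25 (by norm_num) (by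
    rw [show 10 * c + 15 * (c - r * b) - (10 * e2 + 15 * (-a)) = 25 * δ by rw [E3, hcδ]; ring, abs_mul]
    norm_num)
  have d6 := lip hε0 hε1 (x := c - r * b) (y := -a) (by linarith) (by rw [abs_neg]; linarith)
  have d6' := lip' hε0 hε1 (x := c - r * b) (y := -a) (by linarith) (by rw [abs_neg]; linarith)
  have d7 := lip hε0 hε1 (x := (10 * (r * c - b) - 15 * b) / w) (y := (10 * e3 - 15 * b) / w)
    (hquot _ (by rw [abs_le]; constructor <;> linarith)) (hquot _ (by rw [abs_le]; constructor <;> linarith))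
  have s7 := hslope (10 * (r * c - b) - 15 * b) (10 * e3 - 15 * b) 15 (by norm_num) (by
    rw [show 10 * (r * c - b) - 15 * b - (10 * e3 - 15 * b) = 10 * (r * δ) by rw [E2]; ring, abs_mul,
      abs_of_pos (by norm_num : (0 : ℝ) < 10)]
    linarith)
  have d8 := lip2 hε0 hε1 (x := b) (y := r * c - b) (z := e3) (by linarith) (by linarith) (by linarith)
  have g1 : |c - e2| = |δ| := by rw [hcδ]; congr 1; ring
  have g4 : |r * c - b - e3| ≤ 1.42 * |δ| := by rw [E2, show e3 + r * δ - e3 = r * δ by ring]; exact hrδ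
  have g6 : |c - r * b - -a| = |δ| := by rw [E3]; congr 1; ring
  rw [g1] at d1 d1'
  rw [g6] at d6 d6'
  -- replace slopes
  have k0 : 0 ≤ 2000 * ε := by positivity
  have D2 := d2.trans (mul_le_mul_of_nonneg_left s2 k0)
  have D3 := d3.trans (mul_le_mul_of_nonneg_left s3 k0)
  have D4 := d4.trans (mul_le_mul_of_nonneg_left g4 k0)
  have D4' := d4'.trans (mul_le_mul_of_nonneg_left g4 (by norm_num : (0 : ℝ) ≤ 300))
  have D5 := d5.trans (mul_le_mul_of_nonneg_left s5 k0)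
  have D7 := d7.trans (mul_le_mul_of_nonneg_left s7 k0)
  have D8 := d8.trans (mul_le_mul_of_nonneg_left g4 k0)
  -- K terms
  have K1 : |ε * (T ε c - T ε e2)| ≤ ε * (300 * |δ|) := by
    rw [abs_mul, abs_of_nonneg hε0]; exact mul_le_mul_of_nonneg_left d1' hε0
  have K4 : |ε * (T ε (r * c - b) - T ε e3)| ≤ ε * (300 * (1.42 * |δ|)) := by
    rw [abs_mul, abs_of_nonneg hε0]; exact mul_le_mul_of_nonneg_left D4' hε0
  have K6 : |ε * (T ε (c - r * b) - T ε (-a))| ≤ ε * (300 * |δ|) := by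
    rw [abs_mul, abs_of_nonneg hε0]; exact mul_le_mul_of_nonneg_left d6' hε0
  -- quadratic identity
  have hq := D_sq a b c
  have hq0 := D_sq a b (r * b - a)
  rw [← he2] at hq hq0
  rw [sub_self] at hq0
  rw [← hδ] at hq
  have hquad : D (fun x => x ^ 2) (fun x y => x ^ 2 + y ^ 2) 1 a b c -
      D (fun x => x ^ 2) (fun x y => x ^ 2 + y ^ 2) 1 a b e2 = 6 / 325 * δ ^ 2 := by
    rw [hq, hq0]; ring
  unfold D V at hquad ⊢
  simp only [] at hquad ⊢
  rw [E2s, E3s] at hquad ⊢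
  have hεδ : 0 ≤ ε * |δ| := by positivity
  clear d2 s2 d3 s3 d4 d4' d5 s5 d7 s7 d8 D4' d1' d6' hq hq0 hquot hslope g1 g4 g6
  generalize (3 * c + 12 * r * b - 2 * a) / w = X1 at *
  generalize (3 * e2 + 12 * r * b - 2 * a) / w = X2 at *
  generalize (10 * b + 15 * (r * c - b)) / w = X3 at *
  generalize (10 * b + 15 * e3) / w = X4 at *
  generalize (10 * c + 15 * (c - r * b)) / w = X5 at *
  generalize (10 * e2 + 15 * (-a)) / w = X6 at *
  generalize (10 * (r * c - b) - 15 * b) / w = X7 at *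
  generalize (10 * e3 - 15 * b) / w = X8 at *
  generalize (10 * a + 15 * e2) / w = X9 at *
  generalize (10 * e2 - 15 * a) / w = X10 at *
  generalize r * c - b = Y1 at *
  generalize c - r * b = Y2 at *
  generalize |δ| = dd at *
  rw [abs_le] at d1 D2 D3 D4 D5 d6 D7 D8 K1 K4 K6
  obtain ⟨d1a, d1b⟩ := d1
  obtain ⟨D2a, D2b⟩ := D2
  obtain ⟨D3a, D3b⟩ := D3
  obtain ⟨D4a, D4b⟩ := D4
  obtain ⟨D5a, D5b⟩ := D5
  obtain ⟨d6a, d6b⟩ := d6
  obtain ⟨D7a, D7b⟩ := D7
  obtain ⟨D8a, D8b⟩ := D8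
  obtain ⟨K1a, K1b⟩ := K1
  obtain ⟨K4a, K4b⟩ := K4
  obtain ⟨K6a, K6b⟩ := K6
  linarith

end

end Pool.Agent.H82R3.MZ
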