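import Mathlib
import Pool.Agent.H82R3.MZ.Ineq

set_option autoImplicit false
open Filter Topology

namespace Pool.Agent.H82R3.MZ

noncomputable section

lemma T_scale {ε l x : ℝ} : T ε (l * x) = (l ^ 2) ^ (1 - ε) * T ε x := by
  unfold T
  rw [mul_pow, Real.mul_rpow (sq_nonneg _) (sq_nonneg _)]

lemma T2_scale {ε l x y : ℝ} : T2 ε (l * x) (l * y) = (l ^ 2) ^ (1 - ε) * T2 ε x y := by
  unfold T2
  rw [mul_pow, mul_pow, ← mul_add, Real.mul_rpow (sq_nonneg _) (by positivity)]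

lemma V_scale {ε l K a b : ℝ} : V (T ε) (T2 ε) K (l * a) (l * b) = (l ^ 2) ^ (1 - ε) * V (T ε) (T2 ε) K a b := by
  unfold V
  rw [show (10 * (l * a) + 15 * (r * (l * b) - l * a)) / w = l * ((10 * a + 15 * (r * b - a)) / w) by ring,
    show r * (l * b) - l * a = l * (r * b - a) by ring,
    show (10 * (l * b) + 15 * (l * b - r * (l * a))) / w = l * ((10 * b + 15 * (b - r * a)) / w) by ring,
    show l * b - r * (l * a) = l * (b - r * a) by ring,
    show (10 * (l * (r * b - a)) - 15 * (l * a)) / w = l * ((10 * (r * b - a) - 15 * a) / w) by ring,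
    T_scale, T_scale, T_scale, T_scale, T_scale, T_scale, T2_scale]
  ring

lemma D_scale {ε l K a b c : ℝ} :
    D (T ε) (T2 ε) K (l * a) (l * b) (l * c) = (l ^ 2) ^ (1 - ε) * D (T ε) (T2 ε) K a b c := by
  unfold D
  rw [V_scale, V_scale, T_scale,
    show (3 * (l * c) + 12 * r * (l * b) - 2 * (l * a)) / w = l * ((3 * c + 12 * r * b - 2 * a) / w) by ring, T_scale]
  ring

set_option maxHeartbeats 1000000 in
lemma D_exact_lower {ε a b Q : ℝ} (hε0 : 0 ≤ ε) (hε1 : ε ≤ 1 / 10 ^ 6) (hQ : 2 * Q = a ^ 2 + (r * b - a) ^ 2) (hQ0 : 0 < Q) :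
    ε / 1000 * Q ^ (1 - ε) ≤ D (T ε) (T2 ε) (1 + 48 / 625 * ε) a b (r * b - a) := by
  have hr := r_sq
  have hw := w_sq
  have hw0 : w ≠ 0 := by have := w_lo; linarith
  have hsum : b ^ 2 + (b - r * a) ^ 2 = 2 * Q := by rw [hQ]; linear_combination (a ^ 2 - b ^ 2) * hr
  rw [D_exact (T ε) (T2 ε) (T_neg ε)]
  · have h1 := (orbit_bounds (u0 := a ^ 2) (u1 := b ^ 2) (u2 := (r * b - a) ^ 2) (u3 := (b - r * a) ^ 2) (Q := Q) (ε := ε)
      (sq_nonneg _) (sq_nonneg _) (sq_nonneg _) (sq_nonneg _) hQ0 hQ.symm hsum (by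
        have h4 : 4 * Q ^ 2 = (a ^ 2 + (r * b - a) ^ 2) ^ 2 := by rw [← hQ]; ring
        rw [h4]
        have hr3 : r ^ 3 = 2 * r := by rw [pow_succ, hr]
        have hr4 : r ^ 4 = 4 := by rw [show r ^ 4 = (r ^ 2) ^ 2 by ring, hr]; norm_num
        ring_nf
        simp only [hr, hr3, hr4]
        ring) hε0 (by linarith)).1
    have h2 := (orbit_bounds (u0 := ((10 * a + 15 * (r * b - a)) / w) ^ 2) (u1 := ((10 * b + 15 * (b - r * a)) / w) ^ 2)
      (u2 := ((10 * (r * b - a) - 15 * a) / w) ^ 2) (u3 := ((10 * (b - r * a) - 15 * b) / w) ^ 2) (Q := Q) (ε := ε)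
      (sq_nonneg _) (sq_nonneg _) (sq_nonneg _) (sq_nonneg _) hQ0 (by
        rw [div_pow, div_pow, hw, hQ]; ring) (by
        rw [div_pow, div_pow, hw, ← hsum]; ring) (by
        have h4 : 4 * Q ^ 2 = (a ^ 2 + (r * b - a) ^ 2) ^ 2 := by rw [← hQ]; ring
        rw [h4]
        simp only [div_pow, hw]
        have hr3 : r ^ 3 = 2 * r := by rw [pow_succ, hr]
        have hr4 : r ^ 4 = 4 := by rw [show r ^ 4 = (r ^ 2) ^ 2 by ring, hr]; norm_num
        ring_nf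
        simp only [hr, hr3, hr4]
        ring) hε0 (by linarith)).2
    have hK : 0 ≤ 1 + 48 / 625 * ε := by linarith
    have h3 := mul_le_mul_of_nonneg_left h1 hK
    have hQq : 0 < Q ^ (1 - ε) := Real.rpow_pos_of_pos hQ0 _
    have hlog := Real.log_two_lt_d9
    have hlog0 := Real.log_two_gt_d9
    -- coefficient inequality
    have hcoef : 4 * (ε / 1000) ≤ (1 + 48 / 625 * ε) * (4 - 2 * Real.log 2 * ε) - (4 - 13 / 12 * ε + 128 * ε ^ 2) := by
      have e1 : (1 + 48 / 625 * ε) * (4 - 2 * Real.log 2 * ε) - (4 - 13 / 12 * ε + 128 * ε ^ 2) - 4 * (ε / 1000) =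
        ε * ((192 / 625 - 2 * Real.log 2 + 13 / 12 - 4 / 1000) - (96 / 625 * Real.log 2 + 128) * ε) := by ring
      have h5 : 0 ≤ ε * ((192 / 625 - 2 * Real.log 2 + 13 / 12 - 4 / 1000) - (96 / 625 * Real.log 2 + 128) * ε) := by
        apply mul_nonneg hε0
        have h6 : (96 / 625 * Real.log 2 + 128) * ε ≤ 129 * (1 / 10 ^ 6) := by
          apply mul_le_mul _ hε1 hε0 (by norm_num)
          linarith
        norm_num at h6 hlog ⊢
        linarith
      linarith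
    have h7 := mul_le_mul_of_nonneg_right hcoef hQq.le
    unfold T
    nlinarith
  · unfold T2
    congr 1
    rw [hsum, hQ]

lemma D_exact_nonneg {ε a b : ℝ} (hε0 : 0 ≤ ε) (hε1 : ε ≤ 1 / 10 ^ 6) :
    0 ≤ D (T ε) (T2 ε) (1 + 48 / 625 * ε) a b (r * b - a) := by
  rcases eq_or_lt_of_le (show 0 ≤ (a ^ 2 + (r * b - a) ^ 2) / 2 by positivity) with h | h
  · have h1 : a ^ 2 + (r * b - a) ^ 2 = 0 := by linarith
    have ha : a = 0 := by nlinarith [sq_nonneg a, sq_nonneg (r * b - a)]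
    have hb : b = 0 := by
      rw [ha] at h1
      have h2 : (r * b) ^ 2 = 0 := by simpa using h1
      have h3 : r * b = 0 := by simpa using h2
      rcases mul_eq_zero.1 h3 with h4 | h4
      · have := r_lo; linarith
      · exact h4
    rw [ha, hb]
    have hT0 : T ε 0 = 0 := by
      unfold T
      rw [zero_pow two_ne_zero, Real.zero_rpow (by norm_num at hε1 ⊢; linarith)]
    have hT20 : T2 ε 0 0 = 0 := by
      unfold T2
      rw [zero_pow two_ne_zero, add_zero, Real.zero_rpow (by norm_num at hε1 ⊢; linarith)]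
    unfold D V
    simp [hT0, hT20]
  · have h1 := D_exact_lower (a := a) (b := b) hε0 hε1 (by ring) h
    have h2 : 0 ≤ ε / 1000 * ((a ^ 2 + (r * b - a) ^ 2) / 2) ^ (1 - ε) := by positivity
    linarith

lemma D_nonneg_sphere {ε a b c : ℝ} (hε0 : 0 ≤ ε) (hε1 : ε ≤ 1 / 10 ^ 15) (hs : a ^ 2 + b ^ 2 + c ^ 2 = 1) :
    0 ≤ D (T ε) (T2 ε) (1 + 48 / 625 * ε) a b c := by
  have hr := r_sq
  have ha : |a| ≤ 1 := by rw [← sq_le_one_iff_abs_le_one]; nlinarith [sq_nonneg b, sq_nonneg c]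
  have hb : |b| ≤ 1 := by rw [← sq_le_one_iff_abs_le_one]; nlinarith [sq_nonneg a, sq_nonneg c]
  have hc : |c| ≤ 1 := by rw [← sq_le_one_iff_abs_le_one]; nlinarith [sq_nonneg a, sq_nonneg b]
  have hε2 : ε ≤ 1 / 10 ^ 6 := by norm_num at hε1 ⊢; linarith
  have hp := pert (ε := ε) hε0 (by norm_num at hε1 ⊢; linarith) ha hb hc
  set δ := c - (r * b - a) with hδ
  have hδ0 := abs_nonneg δ
  have hδ2 : |δ| ^ 2 = δ ^ 2 := sq_abs δ
  obtain ⟨Q, hQ⟩ : ∃ Q : ℝ, 2 * Q = a ^ 2 + (r * b - a) ^ 2 := ⟨(a ^ 2 + (r * b - a) ^ 2) / 2, by ring⟩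
  have hsum : b ^ 2 + (b - r * a) ^ 2 = 2 * Q := by rw [hQ]; linear_combination (a ^ 2 - b ^ 2) * hr
  rw [← hδ2] at hp
  rcases le_or_gt (1 / 16) Q with hQ1 | hQ1
  · have h1 := D_exact_lower (ε := ε) hε0 hε2 hQ (by linarith)
    have h2 : 1 / 16 ≤ Q ^ (1 - ε) := by
      rcases le_or_gt Q 1 with h | h
      · calc 1 / 16 ≤ Q := hQ1
          _ = Q ^ (1 : ℝ) := (Real.rpow_one Q).symm
          _ ≤ _ := Real.rpow_le_rpow_of_exponent_ge (by linarith) h (by linarith)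
      · have : 1 ≤ Q ^ (1 - ε) := Real.one_le_rpow h.le (by norm_num at hε2 ⊢; linarith)
        linarith
    have h3 : ε / 1000 * (1 / 16) ≤ ε / 1000 * Q ^ (1 - ε) := mul_le_mul_of_nonneg_left h2 (by positivity)
    have h4 : 0 ≤ 6 / 325 * |δ| ^ 2 - 12000 * ε * |δ| + ε / 16000 := by
      have h5 : 6 / 325 * |δ| ^ 2 - 12000 * ε * |δ| + ε / 16000 =
        6 / 325 * (|δ| - 325000 * ε) ^ 2 + ε * (1 / 16000 - 1950000000 * ε) := by ring
      rw [h5]
      apply add_nonneg (by positivity)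
      apply mul_nonneg hε0
      norm_num at hε1 ⊢
      linarith
    linarith
  · have h1 := D_exact_nonneg (ε := ε) (a := a) (b := b) hε0 hε2
    have h2 : 1 / 4 ≤ |δ| ^ 2 := by
      rw [hδ2]
      have hcc : c = (r * b - a) + δ := by rw [hδ]; ring
      have h3 : c ^ 2 ≤ 2 * (r * b - a) ^ 2 + 2 * δ ^ 2 := by rw [hcc]; nlinarith [sq_nonneg ((r * b - a) - δ)]
      nlinarith [sq_nonneg a, sq_nonneg b, sq_nonneg (b - r * a), sq_nonneg (r * b - a)]
    have h3 : 1 / 2 ≤ |δ| := by nlinarith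
    have h4 : 0 ≤ 6 / 325 * |δ| ^ 2 - 12000 * ε * |δ| := by
      have : 6 / 325 * |δ| ^ 2 - 12000 * ε * |δ| = |δ| * (6 / 325 * |δ| - 12000 * ε) := by ring
      rw [this]
      apply mul_nonneg hδ0
      norm_num at hε1 ⊢
      linarith
    linarith

lemma D_nonneg {ε : ℝ} (hε0 : 0 ≤ ε) (hε1 : ε ≤ 1 / 10 ^ 15) (a b c : ℝ) :
    0 ≤ D (T ε) (T2 ε) (1 + 48 / 625 * ε) a b c := by
  rcases eq_or_lt_of_le (show 0 ≤ a ^ 2 + b ^ 2 + c ^ 2 by positivity) with h | h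
  · have ha : a = 0 := by nlinarith [sq_nonneg a, sq_nonneg b, sq_nonneg c]
    have hb : b = 0 := by nlinarith [sq_nonneg a, sq_nonneg b, sq_nonneg c]
    have hc : c = 0 := by nlinarith [sq_nonneg a, sq_nonneg b, sq_nonneg c]
    have := D_exact_nonneg (ε := ε) (a := 0) (b := 0) hε0 (by norm_num at hε1 ⊢; linarith)
    rw [ha, hb, hc]
    simpa using this
  · set l := Real.sqrt (a ^ 2 + b ^ 2 + c ^ 2) with hl
    have hl0 : 0 < l := Real.sqrt_pos.2 h
    have hl2 : l ^ 2 = a ^ 2 + b ^ 2 + c ^ 2 := Real.sq_sqrt h.le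
    have e1 : D (T ε) (T2 ε) (1 + 48 / 625 * ε) a b c =
        (l ^ 2) ^ (1 - ε) * D (T ε) (T2 ε) (1 + 48 / 625 * ε) (a / l) (b / l) (c / l) := by
      rw [← D_scale, mul_div_cancel₀ _ hl0.ne', mul_div_cancel₀ _ hl0.ne', mul_div_cancel₀ _ hl0.ne']
    rw [e1]
    apply mul_nonneg (Real.rpow_nonneg (sq_nonneg _) _)
    apply D_nonneg_sphere hε0 hε1
    rw [div_pow, div_pow, div_pow, ← add_div, ← add_div, hl2]
    exact div_self h.ne'

end

end Pool.Agent.H82R3.MZ
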