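import Mathlib
import Pool.Agent.H82R3.MZ.Pos

set_option autoImplicit false
open Filter Topology

namespace Pool.Agent.H82R3.MZ

noncomputable section

lemma real_sum {ε : ℝ} (hε0 : 0 ≤ ε) (hε1 : ε ≤ 1 / 10 ^ 15) (z : ℕ → ℝ) (M : ℕ) (h0 : z 0 = 0) (h1 : z 1 = 0)
    (hM : z M = 0) (hM1 : z (M + 1) = 0) :
    ∑ n ∈ Finset.range M, T ε ((3 * z (n + 2) + 12 * r * z (n + 1) - 2 * z n) / w) ≤
      (1 + 48 / 625 * ε) * ∑ n ∈ Finset.range M, T ε (z (n + 2)) := by
  have h2 : ∑ n ∈ Finset.range M, D (T ε) (T2 ε) (1 + 48 / 625 * ε) (z n) (z (n + 1)) (z (n + 2)) =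
      (1 + 48 / 625 * ε) * ∑ n ∈ Finset.range M, T ε (z (n + 2)) -
      ∑ n ∈ Finset.range M, T ε ((3 * z (n + 2) + 12 * r * z (n + 1) - 2 * z n) / w) := by
    unfold D
    have h3 := Finset.sum_range_sub (fun n => V (T ε) (T2 ε) (1 + 48 / 625 * ε) (z n) (z (n + 1))) M
    rw [h0, h1, hM, hM1, sub_self] at h3
    rw [Finset.mul_sum, ← Finset.sum_sub_distrib]
    have h5 : ∀ x y : ℝ, y = 0 → x + y = x := fun x y hy => by rw [hy, add_zero]
    refine Eq.trans ?_ (h5 _ _ h3)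
    rw [← Finset.sum_add_distrib]
    apply Finset.sum_congr rfl
    intro n _
    ring
  have h4 : 0 ≤ ∑ n ∈ Finset.range M, D (T ε) (T2 ε) (1 + 48 / 625 * ε) (z n) (z (n + 1)) (z (n + 2)) :=
    Finset.sum_nonneg (fun n _ => D_nonneg hε0 hε1 _ _ _)
  linarith

/-- `u ↦ (‖u‖²)^(1-ε)` -/
def N (ε : ℝ) (u : ℂ) : ℝ := (‖u‖ ^ 2) ^ (1 - ε)

lemma continuous_T {ε : ℝ} (hε1 : ε ≤ 1) : Continuous (T ε) := by
  unfold T
  exact (continuous_pow 2).rpow_const (fun x => Or.inr (by linarith))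

/-- the constant of the averaging argument -/
def κ (ε : ℝ) : ℝ := ∫ θ in (0 : ℝ)..(2 * Real.pi), T ε (Real.cos θ)

lemma kappa_pos {ε : ℝ} (hε1 : ε ≤ 1) : 0 < κ ε := by
  unfold κ
  apply intervalIntegral.integral_pos (by positivity)
  · exact ((continuous_T hε1).comp Real.continuous_cos).continuousOn
  · intro x _
    exact T_nonneg _ _
  · refine ⟨0, ⟨le_refl _, by positivity⟩, ?_⟩
    rw [Real.cos_zero]
    unfold T
    rw [one_pow, Real.one_rpow]
    norm_num

lemma average {ε : ℝ} (u : ℂ) :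
    ∫ θ in (0 : ℝ)..(2 * Real.pi), T ε ((Complex.exp (θ * Complex.I) * u).re) = κ ε * N ε u := by
  have e1 : ∀ θ : ℝ, (Complex.exp (θ * Complex.I) * u).re = ‖u‖ * Real.cos (θ + u.arg) := by
    intro θ
    have h1 : u = ‖u‖ * Complex.exp (u.arg * Complex.I) := (Complex.norm_mul_exp_arg_mul_I u).symm
    have h2 : Complex.exp (θ * Complex.I) * u = (‖u‖ : ℂ) * Complex.exp (((θ + u.arg : ℝ) : ℂ) * Complex.I) := by
      conv_lhs => rw [h1]
      push_cast
      rw [add_mul, Complex.exp_add]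
      ring
    rw [h2, Complex.re_ofReal_mul, Complex.exp_ofReal_mul_I_re]
  simp_rw [e1, T_scale]
  rw [intervalIntegral.integral_const_mul]
  have hper : Function.Periodic (fun θ => T ε (Real.cos θ)) (2 * Real.pi) := by
    intro θ
    simp [Real.cos_add_two_pi]
  have h3 : ∫ θ in (0 : ℝ)..(2 * Real.pi), T ε (Real.cos (θ + u.arg)) = κ ε := by
    unfold κ
    rw [intervalIntegral.integral_comp_add_right (fun θ => T ε (Real.cos θ)) u.arg]
    have := hper.intervalIntegral_add_eq u.arg 0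
    rw [zero_add, add_comm u.arg] at this
    rw [zero_add]
    exact this
  rw [h3]
  unfold N
  ring

/-- the inequality for complex sequences -/
lemma complex_sum {ε : ℝ} (hε0 : 0 ≤ ε) (hε1 : ε ≤ 1 / 10 ^ 15) (z : ℕ → ℂ) (M : ℕ) (h0 : z 0 = 0) (h1 : z 1 = 0)
    (hM : z M = 0) (hM1 : z (M + 1) = 0) :
    ∑ n ∈ Finset.range M, N ε ((3 * z (n + 2) + 12 * r * z (n + 1) - 2 * z n) / w) ≤
      (1 + 48 / 625 * ε) * ∑ n ∈ Finset.range M, N ε (z (n + 2)) := by
  have hε2 : ε ≤ 1 := by norm_num at hε1 ⊢; linarith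
  have hcont : ∀ u : ℂ, Continuous (fun θ : ℝ => T ε ((Complex.exp (θ * Complex.I) * u).re)) := by
    intro u
    exact (continuous_T hε2).comp (by fun_prop)
  have h2 : ∀ θ : ℝ, ∑ n ∈ Finset.range M,
      T ε ((Complex.exp (θ * Complex.I) * ((3 * z (n + 2) + 12 * r * z (n + 1) - 2 * z n) / w)).re) ≤
      (1 + 48 / 625 * ε) * ∑ n ∈ Finset.range M, T ε ((Complex.exp (θ * Complex.I) * z (n + 2)).re) := by
    intro θ
    have h3 := real_sum hε0 hε1 (fun n => (Complex.exp (θ * Complex.I) * z n).re) M (by simp [h0]) (by simp [h1])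
      (by simp [hM]) (by simp [hM1])
    refine le_trans (le_of_eq ?_) h3
    apply Finset.sum_congr rfl
    intro n _
    congr 1
    have e1 : Complex.exp (θ * Complex.I) * ((3 * z (n + 2) + 12 * r * z (n + 1) - 2 * z n) / w) =
      (((3 / w : ℝ) : ℂ) * (Complex.exp (θ * Complex.I) * z (n + 2)) +
        ((12 * r / w : ℝ) : ℂ) * (Complex.exp (θ * Complex.I) * z (n + 1))) -
        ((2 / w : ℝ) : ℂ) * (Complex.exp (θ * Complex.I) * z n) := by
      push_cast
      ring
    rw [e1, Complex.sub_re, Complex.add_re, Complex.re_ofReal_mul, Complex.re_ofReal_mul, Complex.re_ofReal_mul]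
    ring
  have h3 := intervalIntegral.integral_mono (μ := MeasureTheory.volume) (a := 0) (b := 2 * Real.pi) (by positivity)
    (f := fun θ : ℝ => ∑ n ∈ Finset.range M,
      T ε ((Complex.exp (θ * Complex.I) * ((3 * z (n + 2) + 12 * r * z (n + 1) - 2 * z n) / w)).re))
    (g := fun θ : ℝ => (1 + 48 / 625 * ε) * ∑ n ∈ Finset.range M, T ε ((Complex.exp (θ * Complex.I) * z (n + 2)).re))
    ((continuous_finset_sum _ (fun n _ => hcont _)).intervalIntegrable _ _)
    ((continuous_const.mul (continuous_finset_sum _ (fun n _ => hcont _))).intervalIntegrable _ _) h2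
  rw [intervalIntegral.integral_const_mul, intervalIntegral.integral_finset_sum
    (fun n _ => (hcont _).intervalIntegrable _ _), intervalIntegral.integral_finset_sum
    (fun n _ => (hcont _).intervalIntegrable _ _)] at h3
  simp_rw [average] at h3
  rw [← Finset.mul_sum, ← Finset.mul_sum] at h3
  have hk := kappa_pos hε2
  have h4 : κ ε * ∑ n ∈ Finset.range M, N ε ((3 * z (n + 2) + 12 * r * z (n + 1) - 2 * z n) / w) ≤
      κ ε * ((1 + 48 / 625 * ε) * ∑ n ∈ Finset.range M, N ε (z (n + 2))) := by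
    calc _ ≤ _ := h3
      _ = _ := by ring
  exact le_of_mul_le_mul_left h4 hk

end

end Pool.Agent.H82R3.MZ
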