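import Mathlib

set_option autoImplicit false
open Filter Topology

namespace Pool.Agent.H82R3.MZ

noncomputable section

/-- the scalar `2^(-1/p)` for `p = 2 - 2ε` -/
def ρ (ε : ℝ) : ℝ := (2 : ℝ) ^ (-1 / (2 - 2 * ε))

/-- first coordinate of `P(T)(18,1)` -/
def fA (ε : ℝ) : ℝ := 54 + 204 * √2 * ρ ε + 4 * ρ ε ^ 2

/-- second coordinate of `P(T)(18,1)` -/
def fB (ε : ℝ) : ℝ := 3 + 228 * √2 * ρ ε - 72 * ρ ε ^ 2

lemma rho_zero : ρ 0 = 1 / √2 := by
  unfold ρ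
  rw [show (-1 / (2 - 2 * (0 : ℝ))) = -(1 / 2) by norm_num, Real.rpow_neg (by norm_num), Real.sqrt_eq_rpow]
  simp

lemma rho_deriv : HasDerivAt ρ (-(Real.log 2 / 2) * (1 / √2)) 0 := by
  have h1 : HasDerivAt (fun ε : ℝ => -1 / (2 - 2 * ε)) (-(1 / 2)) 0 := by
    have h2 : HasDerivAt (fun ε : ℝ => 2 - 2 * ε) (-(2 * 1)) 0 := by
      simpa using ((hasDerivAt_id (0 : ℝ)).const_mul 2).const_sub 2
    have h3 := (hasDerivAt_const (0 : ℝ) (-1 : ℝ)).div h2 (by norm_num)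
    refine h3.congr_deriv ?_
    norm_num
  have h2 := h1.const_rpow (a := 2) (by norm_num)
  have h3 : (fun ε : ℝ => (2 : ℝ) ^ (-1 / (2 - 2 * ε))) = ρ := rfl
  rw [h3] at h2
  refine h2.congr_deriv ?_
  have h4 : (2 : ℝ) ^ (-1 / (2 - 2 * (0 : ℝ))) = 1 / √2 := rho_zero
  rw [h4]
  ring

lemma sqrt2_mul : √2 * (1 / √2) = 1 := by
  have : √2 ≠ 0 := by positivity
  field_simp

lemma sq_inv_sqrt2 : (1 / √2) ^ 2 = 1 / 2 := by
  rw [div_pow, Real.sq_sqrt (by norm_num)]; norm_num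

lemma fA_zero : fA 0 = 260 := by
  unfold fA
  rw [rho_zero, mul_assoc, sqrt2_mul, sq_inv_sqrt2]
  norm_num

lemma fB_zero : fB 0 = 195 := by
  unfold fB
  rw [rho_zero, mul_assoc, sqrt2_mul, sq_inv_sqrt2]
  norm_num

lemma fA_deriv : HasDerivAt fA (-(104 * Real.log 2)) 0 := by
  have h1 := rho_deriv
  have h2 := ((h1.const_mul (204 * √2)).const_add 54).add ((h1.pow 2).const_mul 4)
  have h3 : HasDerivAt fA _ 0 := h2
  refine h3.congr_deriv ?_
  rw [rho_zero]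
  have e1 := sqrt2_mul
  have e2 := sq_inv_sqrt2
  have : 204 * √2 * (-(Real.log 2 / 2) * (1 / √2)) + 4 * (((2 : ℕ) : ℝ) * (1 / √2) ^ (2 - 1) * (-(Real.log 2 / 2) * (1 / √2))) =
    -(102 * Real.log 2) * (√2 * (1 / √2)) - 4 * Real.log 2 * (1 / √2) ^ 2 := by
    rw [show (2 - 1 : ℕ) = 1 from rfl, pow_one]
    generalize 1 / √2 = c
    push_cast; ring
  rw [this, e1, e2]
  ring

lemma fB_deriv : HasDerivAt fB (-(78 * Real.log 2)) 0 := by
  have h1 := rho_deriv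
  have h2 := ((h1.const_mul (228 * √2)).const_add 3).sub ((h1.pow 2).const_mul 72)
  have h3 : HasDerivAt fB _ 0 := h2
  refine h3.congr_deriv ?_
  rw [rho_zero]
  have e1 := sqrt2_mul
  have e2 := sq_inv_sqrt2
  have : 228 * √2 * (-(Real.log 2 / 2) * (1 / √2)) - 72 * (((2 : ℕ) : ℝ) * (1 / √2) ^ (2 - 1) * (-(Real.log 2 / 2) * (1 / √2))) =
    -(114 * Real.log 2) * (√2 * (1 / √2)) + 72 * Real.log 2 * (1 / √2) ^ 2 := by
    rw [show (2 - 1 : ℕ) = 1 from rfl, pow_one]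
    generalize 1 / √2 = c
    push_cast; ring
  rw [this, e1, e2]
  ring

/-- the gap function -/
def Θ (ε : ℝ) : ℝ := (fA ε ^ 2) ^ (1 - ε) + (fB ε ^ 2) ^ (1 - ε) -
  (325 : ℝ) ^ (1 - ε) * (1 + 48 / 625 * ε) * ((324 : ℝ) ^ (1 - ε) + 1)

lemma theta_zero : Θ 0 = 0 := by
  unfold Θ
  rw [fA_zero, fB_zero]
  norm_num

lemma theta_deriv : HasDerivAt Θ (-144300 * Real.log 2 + 345150 * Real.log 3 - 105625 * Real.log 13 - 8112) 0 := by
  have hs : HasDerivAt (fun ε : ℝ => 1 - ε) (-1) 0 := by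
    simpa using (hasDerivAt_id (0 : ℝ)).const_sub 1
  have hA := (fA_deriv.pow 2).rpow hs (by rw [Pi.pow_apply, fA_zero]; norm_num)
  have hB := (fB_deriv.pow 2).rpow hs (by rw [Pi.pow_apply, fB_zero]; norm_num)
  have h1 := hs.const_rpow (a := 325) (by norm_num)
  have h2 := hs.const_rpow (a := 324) (by norm_num)
  have h3 : HasDerivAt (fun ε : ℝ => 1 + 48 / 625 * ε) (48 / 625 * 1) 0 := by
    simpa using ((hasDerivAt_id (0 : ℝ)).const_mul (48 / 625)).const_add 1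
  have h4 := (hA.add hB).sub ((h1.mul h3).mul (h2.add_const 1))
  have h5 : HasDerivAt Θ _ 0 := h4
  refine h5.congr_deriv ?_
  simp only [Pi.pow_apply, Pi.mul_apply, Pi.add_apply, fA_zero, fB_zero, sub_zero, Real.rpow_one, mul_zero, add_zero,
    sub_self, Real.rpow_zero]
  have e260 : Real.log (260 ^ 2) = 4 * Real.log 2 + 2 * Real.log 5 + 2 * Real.log 13 := by
    rw [show (260 : ℝ) ^ 2 = 2 ^ 4 * 5 ^ 2 * 13 ^ 2 by norm_num, Real.log_mul (by norm_num) (by norm_num),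
      Real.log_mul (by norm_num) (by norm_num), Real.log_pow, Real.log_pow, Real.log_pow]
    norm_num
  have e195 : Real.log (195 ^ 2) = 2 * Real.log 3 + 2 * Real.log 5 + 2 * Real.log 13 := by
    rw [show (195 : ℝ) ^ 2 = 3 ^ 2 * 5 ^ 2 * 13 ^ 2 by norm_num, Real.log_mul (by norm_num) (by norm_num),
      Real.log_mul (by norm_num) (by norm_num), Real.log_pow, Real.log_pow, Real.log_pow]
    norm_num
  have e325 : Real.log 325 = 2 * Real.log 5 + Real.log 13 := by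
    rw [show (325 : ℝ) = 5 ^ 2 * 13 by norm_num, Real.log_mul (by norm_num) (by norm_num), Real.log_pow]
    norm_num
  have e324 : Real.log 324 = 2 * Real.log 2 + 4 * Real.log 3 := by
    rw [show (324 : ℝ) = 2 ^ 2 * 3 ^ 4 by norm_num, Real.log_mul (by norm_num) (by norm_num), Real.log_pow, Real.log_pow]
    norm_num
  rw [e260, e195, e325, e324]
  norm_num
  ring

lemma theta_deriv_pos : 0 < -144300 * Real.log 2 + 345150 * Real.log 3 - 105625 * Real.log 13 - 8112 := by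
  have h3 : 84 * Real.log 2 < 53 * Real.log 3 := by
    have : Real.log ((2 : ℝ) ^ 84) < Real.log ((3 : ℝ) ^ 53) := Real.log_lt_log (by norm_num) (by norm_num)
    rw [Real.log_pow, Real.log_pow] at this
    exact_mod_cast this
  have h13 : 67 * Real.log 13 < 248 * Real.log 2 := by
    have : Real.log ((13 : ℝ) ^ 67) < Real.log ((2 : ℝ) ^ 248) := Real.log_lt_log (by norm_num) (by norm_num)
    rw [Real.log_pow, Real.log_pow] at this
    exact_mod_cast this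
  have h2 := Real.log_two_gt_d9
  nlinarith

lemma exists_eps : ∃ ε : ℝ, 0 < ε ∧ ε ≤ 1 / 10 ^ 15 ∧ 0 < Θ ε := by
  have h1 := (hasDerivAt_iff_tendsto_slope.1 theta_deriv).eventually (lt_mem_nhds theta_deriv_pos)
  have h2 : ∀ᶠ ε in 𝓝[>] (0 : ℝ), 0 < slope Θ 0 ε := h1.filter_mono (nhdsWithin_mono _ (fun x hx => ne_of_gt hx))
  have h3 : ∀ᶠ ε in 𝓝[>] (0 : ℝ), ε < 1 / 10 ^ 15 :=
    mem_nhdsWithin_of_mem_nhds (Iio_mem_nhds (by norm_num))
  have h4 : ∀ᶠ ε in 𝓝[>] (0 : ℝ), 0 < ε := self_mem_nhdsWithin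
  obtain ⟨ε, h5, h6, h7⟩ := (h2.and (h3.and h4)).exists
  refine ⟨ε, h7, h6.le, ?_⟩
  rw [slope_def_field, theta_zero, sub_zero, sub_zero] at h5
  exact (div_pos_iff_of_pos_right h7).1 h5

end

end Pool.Agent.H82R3.MZ
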